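import Pool.Agent.N520.SV.Stm

set_option autoImplicit false

/-!
# Project SV (helper520), part COC (helper73): bounded cocycles are coboundaries by averaging cones
-/

open Set Filter Topology

namespace Pool.Agent.N73.SV

open Pool.Agent.N520.SV

section mean

variable {Γ : Type} {m : (Γ → ℝ) → ℝ}
  (madd : ∀ f g : Γ → ℝ, Bdd f → Bdd g → m (fun γ => f γ + g γ) = m f + m g)
  (msmul : ∀ (c : ℝ) (f : Γ → ℝ), Bdd f → m (fun γ => c * f γ) = c * m f)

theorem Bdd.sum {ι : Type} (s : Finset ι) (c : ι → ℝ) (F : ι → Γ → ℝ) (hF : ∀ i, Bdd (F i)) :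
    Bdd (fun γ => ∑ i ∈ s, c i * F i γ) := by
  choose C hC using hF
  refine ⟨∑ i ∈ s, |c i| * C i, fun γ => ?_⟩
  refine (Finset.abs_sum_le_sum_abs _ _).trans (Finset.sum_le_sum fun i _ => ?_)
  rw [abs_mul]
  exact mul_le_mul_of_nonneg_left (hC i γ) (abs_nonneg _)

include madd msmul in
theorem mean_sum {ι : Type} [DecidableEq ι] (s : Finset ι) (c : ι → ℝ) (F : ι → Γ → ℝ)
    (hF : ∀ i, Bdd (F i)) : m (fun γ => ∑ i ∈ s, c i * F i γ) = ∑ i ∈ s, c i * m (F i) := by
  induction s using Finset.induction_on with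
  | empty =>
    have h0 : Bdd (fun _ : Γ => (0 : ℝ)) := ⟨0, fun _ => by simp⟩
    have h1 := msmul 0 _ h0
    simp only [zero_mul] at h1
    simpa using h1
  | insert i s hi ih =>
    rw [Finset.sum_insert hi]
    have e : (fun γ => ∑ j ∈ insert i s, c j * F j γ) =
        fun γ => c i * F i γ + ∑ j ∈ s, c j * F j γ := by
      funext γ
      rw [Finset.sum_insert hi]
    have hb : Bdd (fun γ => c i * F i γ) := by
      obtain ⟨C, hC⟩ := hF i
      refine ⟨|c i| * C, fun γ => ?_⟩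
      rw [abs_mul]
      exact mul_le_mul_of_nonneg_left (hC γ) (abs_nonneg _)
    rw [e, madd _ _ hb (Bdd.sum s c F hF), msmul _ _ (hF i), ih]

end mean

theorem t_coc (hl : S_LIFT) (hc : S_CONE) : S_COC := by
  classical
  intro X Γ E _ _ _ _ _ _ _ _ dev hol hcont hprop hfree heq hmean k φ hφb hφ
  obtain ⟨m, madd, msmul, mone, minv⟩ := hmean
  obtain ⟨cone, hc0, hcs, hcg⟩ := hc E
  obtain ⟨Cφ, hCφ⟩ := hφb
  -- the projection
  obtain ⟨qc, hqc⟩ : ∃ qc : C(X, MulAction.orbitRel.Quotient Γ X), ∀ x, qc x = Quotient.mk'' x :=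
    ⟨⟨fun x => Quotient.mk'' x, continuous_quot_mk⟩, fun _ => rfl⟩
  have hq : ∀ (γ : Γ) (x : X), qc (γ • x) = qc x := fun γ x => by
    rw [hqc, hqc]
    exact Quotient.sound' (MulAction.orbitRel_apply.2 ⟨γ, rfl⟩)
  -- the developing map
  obtain ⟨dc, hdc⟩ : ∃ dc : C(X, E), ∀ x, dc x = dev x := ⟨⟨dev, dev.continuous⟩, fun _ => rfl⟩
  obtain ⟨ds, hds⟩ : ∃ ds : C(E, X), ∀ x, ds x = dev.symm x :=
    ⟨⟨dev.symm, dev.symm.continuous⟩, fun _ => rfl⟩
  have hsymm : ∀ (δ : Γ) (z : E), dev.symm (hol δ z) = δ • dev.symm z := fun δ z => by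
    rw [Homeomorph.symm_apply_eq, heq, Homeomorph.apply_symm_apply]
  -- the action on the simplices
  obtain ⟨ac, hac⟩ : ∃ ac : (k : ℕ) → Γ → C(Sx k, X) → C(Sx k, X),
      ∀ k δ s p, ac k δ s p = δ • s p :=
    ⟨fun k δ s => ⟨fun p => δ • s p, (hcont δ).comp s.continuous⟩, fun _ _ _ _ => rfl⟩
  -- the cones in X
  obtain ⟨Cx, hCx⟩ : ∃ Cx : (k : ℕ) → E → C(Sx k, X) → C(Sx (k + 1), X),
      ∀ k e s, Cx k e s = ds.comp (cone k e (dc.comp s)) :=
    ⟨fun k e s => ds.comp (cone k e (dc.comp s)), fun _ _ _ => rfl⟩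
  have F0 : ∀ k e s, (Cx k e s).comp (face 0) = s := by
    intro k e s
    ext p
    have h1 := DFunLike.congr_fun (hc0 k e (dc.comp s)) p
    simp only [ContinuousMap.comp_apply] at h1
    rw [hCx]
    simp only [ContinuousMap.comp_apply]
    rw [h1, hds, hdc, Homeomorph.symm_apply_apply]
  have Fs : ∀ k e (s : C(Sx (k + 1), X)) (i : Fin (k + 2)),
      (Cx (k + 1) e s).comp (face i.succ) = Cx k e (s.comp (face i)) := by
    intro k e s i
    ext p
    have h1 := DFunLike.congr_fun (hcs k e (dc.comp s) i) p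
    simp only [ContinuousMap.comp_apply] at h1
    rw [hCx, hCx]
    simp only [ContinuousMap.comp_apply]
    rw [h1]
    rfl
  have Fg : ∀ k (δ : Γ) e s, Cx k (hol δ e) (ac k δ s) = ac (k + 1) δ (Cx k e s) := by
    intro k δ e s
    ext p
    rw [hac, hCx, hCx]
    simp only [ContinuousMap.comp_apply]
    rw [hds, hds, ← hsymm]
    congr 1
    refine hcg (hol δ) k e (dc.comp s) (dc.comp (ac k δ s)) (fun p => ?_) p
    simp only [ContinuousMap.comp_apply]
    rw [hac, hdc, hdc, heq]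
  -- the functions on the group
  obtain ⟨gg, hgg⟩ : ∃ gg : C(Sx k, X) → Γ → ℝ,
      ∀ s γ, gg s γ = φ (qc.comp (Cx k (hol γ 0) s)) := ⟨fun s γ => _, fun _ _ => rfl⟩
  have hgb : ∀ s, Bdd (gg s) := fun s => ⟨Cφ, fun γ => by rw [hgg]; exact hCφ _⟩
  have hinv : ∀ s δ, m (gg (ac k δ s)) = m (gg s) := by
    intro s δ
    rw [← minv (gg s) (hgb s) δ⁻¹]
    congr 1
    funext γ
    rw [hgg, hgg]
    have e1 : hol γ (0 : E) = hol δ (hol (δ⁻¹ * γ) 0) := by
      have h1 : hol γ = hol δ * hol (δ⁻¹ * γ) := by rw [← map_mul, mul_inv_cancel_left]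
      conv_lhs => rw [h1]
      rfl
    rw [e1, Fg]
    congr 1
    ext p
    simp only [ContinuousMap.comp_apply]
    rw [hac, hq]
  have hlift := fun k σ => hl X Γ hcont hprop hfree k σ
  choose lf hlf using fun σ : C(Sx k, MulAction.orbitRel.Quotient Γ X) => (hlift k σ).1
  have hψ : ∀ (σ : C(Sx k, MulAction.orbitRel.Quotient Γ X)) (s : C(Sx k, X)),
      (∀ p, (Quotient.mk'' (s p) : MulAction.orbitRel.Quotient Γ X) = σ p) →
      m (gg (lf σ)) = m (gg s) := by
    intro σ s hs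
    obtain ⟨γ, hγ⟩ := (hlift k σ).2 (lf σ) s (hlf σ) hs
    have e : s = ac k γ (lf σ) := by
      ext p
      rw [hac]
      exact hγ p
    rw [e, hinv]
  refine ⟨fun σ => m (gg (lf σ)), fun σ => ?_⟩
  obtain ⟨s, hs⟩ := (hlift (k + 1) σ).1
  have hface : ∀ i : Fin (k + 2), m (gg (lf (σ.comp (face i)))) = m (gg (s.comp (face i))) := by
    intro i
    exact hψ _ _ fun p => hs (face i p)
  have hσ : qc.comp s = σ := by
    ext p
    rw [ContinuousMap.comp_apply, hqc]
    exact hs p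
  have key : ∀ γ : Γ, φ σ = ∑ i : Fin (k + 2), (-1 : ℝ) ^ (i : ℕ) * gg (s.comp (face i)) γ := by
    intro γ
    have h1 := hφ (qc.comp (Cx (k + 1) (hol γ 0) s))
    rw [Fin.sum_univ_succ] at h1
    have e0 : (qc.comp (Cx (k + 1) (hol γ 0) s)).comp (face 0) = σ := by
      rw [ContinuousMap.comp_assoc, F0, hσ]
    have es : ∀ i : Fin (k + 2), (qc.comp (Cx (k + 1) (hol γ 0) s)).comp (face i.succ) =
        qc.comp (Cx k (hol γ 0) (s.comp (face i))) := fun i => by
      rw [ContinuousMap.comp_assoc, Fs]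
    rw [e0] at h1
    simp only [es, ← hgg] at h1
    have e2 : ∑ i : Fin (k + 2), (-1 : ℝ) ^ ((i.succ : Fin (k + 3)) : ℕ) *
        gg (s.comp (face i)) γ =
        -∑ i : Fin (k + 2), (-1 : ℝ) ^ (i : ℕ) * gg (s.comp (face i)) γ := by
      rw [← Finset.sum_neg_distrib]
      refine Finset.sum_congr rfl fun i _ => ?_
      rw [Fin.val_succ, pow_succ]
      ring
    rw [e2] at h1
    simp only [Fin.val_zero, pow_zero, one_mul] at h1
    linarith
  have h2 : m (fun _ : Γ => φ σ) = φ σ := by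
    have h3 := msmul (φ σ) (fun _ : Γ => (1 : ℝ)) ⟨1, fun _ => by simp⟩
    simp only [mul_one, mone] at h3
    exact h3
  have h4 : m (fun _ : Γ => φ σ) =
      ∑ i : Fin (k + 2), (-1 : ℝ) ^ (i : ℕ) * m (gg (s.comp (face i))) := by
    rw [← mean_sum madd msmul Finset.univ (fun i : Fin (k + 2) => (-1 : ℝ) ^ (i : ℕ))
      (fun i => gg (s.comp (face i))) fun i => hgb _]
    congr 1
    funext γ
    exact key γ
  simp only [hface]
  rw [← h4, h2]

end Pool.Agent.N73.SV
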